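import Mathlib

/-!
A countable `T₁` Fréchet-Urysohn (hence sequential) space which is not `D`-separable.

The points of the space are pairs of natural numbers, written `⟨k, l⟩`; the first coordinate is
the level of the point.  A set `U` is open when for every point `⟨k, l⟩` of `U` and every level
`m ≥ k` all but finitely many points of level `m` belong to `U`.
-/

open Set Filter Topology

namespace Pool.Agent.Results.MP_718903_gt.CountableExample

/-- `X` is d-separable: `X` has a dense subspace which is a union of countably many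
discrete subspaces. -/
def DSeparable (X : Type*) [TopologicalSpace X] : Prop :=
  ∃ E : ℕ → Set X, (∀ n, IsDiscrete (E n)) ∧ Dense (⋃ n, E n)

/-- `X` is D-separable: for every sequence `D 0, D 1, ...` of dense subspaces one can choose
discrete subspaces `F n ⊆ D n` whose union is dense. -/
def SelDSeparable (X : Type*) [TopologicalSpace X] : Prop :=
  ∀ D : ℕ → Set X, (∀ n, Dense (D n)) →
    ∃ F : ℕ → Set X, (∀ n, F n ⊆ D n) ∧ (∀ n, IsDiscrete (F n)) ∧ Dense (⋃ n, F n)

/-- The underlying set of the example. -/
structure Pt where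
  /-- the level of the point -/
  lvl : ℕ
  /-- the index of the point in its level -/
  idx : ℕ

/-- The part of level `m` lying in `A`, as a set of indices. -/
def trace (A : Set Pt) (m : ℕ) : Set ℕ := {j | (⟨m, j⟩ : Pt) ∈ A}

theorem mem_trace {A : Set Pt} {m j : ℕ} : j ∈ trace A m ↔ (⟨m, j⟩ : Pt) ∈ A := Iff.rfl

theorem trace_compl (A : Set Pt) (m : ℕ) : trace Aᶜ m = (trace A m)ᶜ := rfl

instance : Countable Pt :=
  Function.Injective.countable (f := fun p : Pt => (p.lvl, p.idx)) (by
    rintro ⟨a, b⟩ ⟨c, d⟩ h
    simp only [Prod.mk.injEq] at h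
    rw [h.1, h.2])

/-- The topology of the example. -/
instance instTop : TopologicalSpace Pt where
  IsOpen U := ∀ p ∈ U, ∀ m, p.lvl ≤ m → (trace U m)ᶜ.Finite
  isOpen_univ := by
    intro p _ m _
    convert Set.finite_empty
    ext j
    simp [mem_trace]
  isOpen_inter := by
    intro s t hs ht p h m hm
    refine ((hs p h.1 m hm).union (ht p h.2 m hm)).subset ?_
    intro j hj
    by_contra hc
    simp only [mem_union, mem_compl_iff, not_or, not_not] at hc
    exact hj ⟨hc.1, hc.2⟩
  isOpen_sUnion := by
    intro S hS p h m hm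
    obtain ⟨U, hU, hp⟩ := h
    refine (hS U hU p hp m hm).subset ?_
    intro j hj hc
    exact hj ⟨U, hU, hc⟩

theorem isOpen_iff (U : Set Pt) :
    IsOpen U ↔ ∀ p ∈ U, ∀ m, p.lvl ≤ m → (trace U m)ᶜ.Finite := Iff.rfl

/-- A set meeting every level in a finite set is closed. -/
theorem isClosed_of_finite (A : Set Pt) (hA : ∀ k : ℕ, (trace A k).Finite) : IsClosed A := by
  rw [← isOpen_compl_iff, isOpen_iff]
  intro p _ m _
  rw [trace_compl, compl_compl]
  exact hA m

instance : T1Space Pt where
  t1 x := by
    refine isClosed_of_finite _ ?_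
    intro k
    refine (Set.finite_singleton x.idx).subset ?_
    intro j hj
    have h : (⟨k, j⟩ : Pt) = x := hj
    rw [← h]
    exact rfl

/-- A discrete set meets every level in a finite set. -/
theorem finite_of_discrete (F : Set Pt) (hF : IsDiscrete F) (k : ℕ) : (trace F k).Finite := by
  by_contra hinf
  have hinf' : (trace F k).Infinite := hinf
  obtain ⟨j₀, hj₀⟩ := hinf'.nonempty
  have hd := hF.to_subtype
  have hopen : IsOpen ({⟨⟨k, j₀⟩, hj₀⟩} : Set F) := isOpen_discrete _
  obtain ⟨U, hU, hUeq⟩ := isOpen_induced_iff.1 hopen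
  have hmem : (⟨k, j₀⟩ : Pt) ∈ U := by
    have : (⟨⟨k, j₀⟩, hj₀⟩ : F) ∈ (Subtype.val ⁻¹' U : Set F) := by
      rw [hUeq]; exact rfl
    exact this
  have hfin := (isOpen_iff U).1 hU _ hmem k le_rfl
  have hdiff : (trace F k \ ((trace U k)ᶜ ∪ {j₀})).Infinite :=
    hinf'.sdiff (hfin.union (Set.finite_singleton j₀))
  obtain ⟨j, hjF, hj⟩ := hdiff.nonempty
  simp only [mem_union, mem_compl_iff, mem_singleton_iff, not_or, not_not] at hj
  have h2 : (⟨⟨k, j⟩, hjF⟩ : F) ∈ (Subtype.val ⁻¹' U : Set F) := hj.1
  rw [hUeq] at h2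
  have h3 : (⟨k, j⟩ : Pt) = ⟨k, j₀⟩ := congrArg Subtype.val h2
  exact hj.2 (congrArg Pt.idx h3)

/-- The set of points of level at least `n`. -/
def Tail (n : ℕ) : Set Pt := {p | n ≤ p.lvl}

theorem dense_tail (n : ℕ) : Dense (Tail n) := by
  intro x
  rw [mem_closure_iff]
  intro U hU hx
  have hfin := (isOpen_iff U).1 hU x hx (max x.lvl n) (le_max_left _ _)
  have hne : (trace U (max x.lvl n)).Nonempty := by
    by_contra hc
    rw [Set.not_nonempty_iff_eq_empty] at hc
    rw [hc, compl_empty] at hfin
    exact Set.infinite_univ hfin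
  obtain ⟨j, hj⟩ := hne
  exact ⟨⟨max x.lvl n, j⟩, hj, show n ≤ max x.lvl n from le_max_right _ _⟩

/-- If `A` meets level `m ≥ x.lvl` in an infinite set, then a sequence of `A` converges to `x`. -/
theorem seq_of_infinite (A : Set Pt) (x : Pt) (m : ℕ) (hm : x.lvl ≤ m)
    (hinf : (trace A m).Infinite) : x ∈ seqClosure A := by
  have : Infinite (trace A m) := hinf.to_subtype
  let e : ℕ ↪ trace A m := Infinite.natEmbedding _
  refine ⟨fun n => ⟨m, (e n : ℕ)⟩, fun n => (e n).2, ?_⟩
  rw [tendsto_nhds]
  intro U hU hx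
  have hfin := (isOpen_iff U).1 hU x hx m hm
  have hinj : Function.Injective (fun n => (e n : ℕ)) :=
    Subtype.val_injective.comp e.injective
  have ht := hinj.tendsto_cofinite
  rw [Nat.cofinite_eq_atTop] at ht
  have hev : ∀ᶠ j in (cofinite : Filter ℕ), j ∈ trace U m := by
    rw [Filter.eventually_cofinite]
    exact hfin
  rw [Nat.cofinite_eq_atTop] at hev
  exact ht.eventually hev

instance : FrechetUrysohnSpace Pt where
  closure_subset_seqClosure := by
    intro A x hx
    by_cases hxA : x ∈ A
    · exact subset_seqClosure hxA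
    -- some level above that of `x` meets `A` in an infinite set
    have key : ∃ m, x.lvl ≤ m ∧ (trace A m).Infinite := by
      by_contra hno
      have hno' : ∀ m, x.lvl ≤ m → (trace A m).Finite := by
        intro m hm
        by_contra hc
        exact hno ⟨m, hm, hc⟩
      have hU : IsOpen {y : Pt | x.lvl ≤ y.lvl ∧ y ∉ A} := by
        rw [isOpen_iff]
        intro p h m hm
        have h1 : x.lvl ≤ p.lvl := h.1
        refine (hno' m (h1.trans hm)).subset ?_
        intro j hj
        by_contra hc
        exact hj ⟨h1.trans hm, hc⟩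
      obtain ⟨y, hy1, hy2⟩ := mem_closure_iff.1 hx _ hU ⟨le_rfl, hxA⟩
      exact hy1.2 hy2
    obtain ⟨m, hm, hinf⟩ := key
    exact seq_of_infinite A x m hm hinf

theorem not_selDSeparable : ¬ SelDSeparable Pt := by
  intro h
  obtain ⟨F, hFsub, hFd, hdense⟩ := h Tail dense_tail
  have hfin : ∀ k, (trace (⋃ n, F n) k).Finite := by
    intro k
    have hsub : trace (⋃ n, F n) k ⊆ ⋃ n ∈ Finset.range (k + 1), trace (F n) k := by
      intro j hj
      obtain ⟨n, hn⟩ := mem_iUnion.1 (show (⟨k, j⟩ : Pt) ∈ ⋃ n, F n from hj)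
      have hnk : n ≤ k := hFsub n hn
      exact mem_biUnion (by simpa [Nat.lt_succ_iff] using hnk) hn
    exact (Set.Finite.biUnion (Finset.finite_toSet _)
      (fun n _ => finite_of_discrete (F n) (hFd n) k)).subset hsub
  have hclosed := isClosed_of_finite _ hfin
  have huniv : (⋃ n, F n) = univ := by
    rw [← hclosed.closure_eq]; exact hdense.closure_eq
  have h0 := hfin 0
  rw [huniv] at h0
  have : trace (univ : Set Pt) 0 = univ := by
    ext j; simp [mem_trace]
  rw [this] at h0
  exact Set.infinite_univ h0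

/-- Singletons are discrete subspaces, so a countable space is d-separable. -/
theorem dSeparable_of_countable (X : Type*) [TopologicalSpace X] [Countable X] [Nonempty X] :
    DSeparable X := by
  obtain ⟨f, hf⟩ := exists_surjective_nat X
  refine ⟨fun n => {f n}, fun n => ?_, ?_⟩
  · exact ⟨by infer_instance⟩
  · have : (⋃ n, ({f n} : Set X)) = univ := by
      ext x
      obtain ⟨n, hn⟩ := hf x
      simp only [mem_iUnion, mem_singleton_iff, mem_univ, iff_true]
      exact ⟨n, hn.symm⟩
    rw [this]
    exact dense_univ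

/-- **There is a countable (hence separable) `T₁` Fréchet-Urysohn (hence sequential) space which
is d-separable but not D-separable.** -/
theorem result : ∃ (X : Type) (_ : TopologicalSpace X),
    Countable X ∧ T1Space X ∧ FrechetUrysohnSpace X ∧ SequentialSpace X ∧
      DSeparable X ∧ ¬ SelDSeparable X := by
  have : Nonempty Pt := ⟨⟨0, 0⟩⟩
  exact ⟨Pt, inferInstance, inferInstance, inferInstance, inferInstance, inferInstance,
    dSeparable_of_countable Pt, not_selDSeparable⟩

end Pool.Agent.Results.MP_718903_gt.CountableExample
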