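import Mathlib

/-!
A Tychonoff Fréchet-Urysohn space which is d-separable but not D-separable, and the theorem that
a separable Hausdorff sequential space is always D-separable.

The first space is the `Σ`-product of copies of `{0, 1}` over a suitable index set `Idx`: the set
of all `x : Idx → Bool` with countable support, with the topology of pointwise convergence.
-/

open Set Filter Topology MeasureTheory

universe u

namespace Pool.Agent.Results.MP_718903_gt.HausdorffAnswer

/-- `X` is d-separable: `X` has a dense subspace which is a union of countably many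
discrete subspaces. -/
def DSeparable (X : Type*) [TopologicalSpace X] : Prop :=
  ∃ E : ℕ → Set X, (∀ n, IsDiscrete (E n)) ∧ Dense (⋃ n, E n)

/-- `X` is D-separable: for every sequence `D 0, D 1, ...` of dense subspaces one can choose
discrete subspaces `F n ⊆ D n` whose union is dense. -/
def SelDSeparable (X : Type*) [TopologicalSpace X] : Prop :=
  ∀ D : ℕ → Set X, (∀ n, Dense (D n)) →
    ∃ F : ℕ → Set X, (∀ n, F n ⊆ D n) ∧ (∀ n, IsDiscrete (F n)) ∧ Dense (⋃ n, F n)

/-! ### Discrete subspaces -/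

section Discrete

variable {X : Type*} [TopologicalSpace X]

/-- A point of a discrete subspace has a neighbourhood meeting the subspace in that point only. -/
theorem exists_open_of_discrete {F : Set X} (hF : IsDiscrete F) {z : X} (hz : z ∈ F) :
    ∃ U, IsOpen U ∧ z ∈ U ∧ ∀ y ∈ F, y ∈ U → y = z := by
  have hd := hF.to_subtype
  have hopen : IsOpen ({⟨z, hz⟩} : Set F) := isOpen_discrete _
  obtain ⟨U, hU, hUeq⟩ := isOpen_induced_iff.1 hopen
  refine ⟨U, hU, ?_, ?_⟩
  · have : (⟨z, hz⟩ : F) ∈ (Subtype.val ⁻¹' U : Set F) := by rw [hUeq]; exact rfl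
    exact this
  · intro y hy hyU
    have h2 : (⟨y, hy⟩ : F) ∈ (Subtype.val ⁻¹' U : Set F) := hyU
    rw [hUeq] at h2
    exact congrArg Subtype.val h2

/-- If every point of `F` has a neighbourhood meeting `F` in that point only, `F` is discrete. -/
theorem discrete_of_exists_open {F : Set X}
    (h : ∀ z ∈ F, ∃ U, IsOpen U ∧ z ∈ U ∧ ∀ y ∈ F, y ∈ U → y = z) : IsDiscrete F := by
  refine ⟨discreteTopology_iff_isOpen_singleton.2 ?_⟩
  rintro ⟨z, hz⟩
  obtain ⟨U, hU, hzU, hUz⟩ := h z hz
  refine isOpen_induced_iff.2 ⟨U, hU, ?_⟩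
  ext ⟨y, hy⟩
  constructor
  · intro hyU
    have : y = z := hUz y hy hyU
    subst this
    exact rfl
  · intro hyz
    have : y = z := congrArg Subtype.val hyz
    subst this
    exact hzU

end Discrete

/-! ### Separable Hausdorff sequential spaces -/

section Sequential

variable {X : Type*} [TopologicalSpace X]

/-- In a Hausdorff sequential space every point of the closure of `A` is in the closure of a
discrete subspace of `A`. -/
theorem exists_discrete [T2Space X] [SequentialSpace X] (A : Set X) :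
    ∀ p ∈ closure A, ∃ D ⊆ A, IsDiscrete D ∧ p ∈ closure D := by
  -- the set of points with the property inside every neighbourhood
  let B : Set X := {p | ∀ U, IsOpen U → p ∈ U → ∃ D ⊆ A ∩ U, IsDiscrete D ∧ p ∈ closure D}
  have hAB : A ⊆ B := by
    intro p hp U _ hpU
    refine ⟨{p}, ?_, ⟨by infer_instance⟩, subset_closure rfl⟩
    rintro y rfl
    exact ⟨hp, hpU⟩
  have hB : IsSeqClosed B := by
    intro x p hx hlim U hU hpU
    by_cases hex : ∃ n, x n = p
    · obtain ⟨n, rfl⟩ := hex
      exact hx n U hU hpU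
    have hne : ∀ n, x n ≠ p := fun n h => hex ⟨n, h⟩
    -- one step of the construction
    have step : ∀ (k : ℕ) (O : {O : Set X // IsOpen O ∧ p ∈ O}),
        ∃ (n : ℕ) (V : Set X) (O' : {O : Set X // IsOpen O ∧ p ∈ O}),
          k ≤ n ∧ IsOpen V ∧ x n ∈ V ∧ V ⊆ O.1 ∧ O'.1 ⊆ O.1 ∧ Disjoint V O'.1 := by
      intro k O
      have hev : ∀ᶠ n in atTop, x n ∈ O.1 := hlim.eventually (O.2.1.mem_nhds O.2.2)
      obtain ⟨n, hn1, hn2⟩ := ((hev.and (eventually_ge_atTop k))).exists
      obtain ⟨V, W, hV, hW, hxV, hpW, hVW⟩ := t2_separation (hne n)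
      refine ⟨n, V ∩ O.1, ⟨W ∩ O.1, hW.inter O.2.1, hpW, O.2.2⟩, hn2, hV.inter O.2.1,
        ⟨hxV, hn1⟩, inter_subset_right, inter_subset_right, ?_⟩
      exact hVW.mono inter_subset_left inter_subset_left
    choose n V O' hn hV hxV hVO hO'O hdisj using step
    let Os : ℕ → {O : Set X // IsOpen O ∧ p ∈ O} :=
      fun k => Nat.rec (⟨U, hU, hpU⟩ : {O : Set X // IsOpen O ∧ p ∈ O}) (fun k O => O' k O) k
    have hOs : ∀ k, Os (k + 1) = O' k (Os k) := fun k => rfl
    have hanti : ∀ j k, j ≤ k → (Os k).1 ⊆ (Os j).1 := by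
      intro j k hjk
      induction hjk with
      | refl => exact subset_rfl
      | step _ ih =>
        rw [Nat.succ_eq_add_one, hOs]
        exact (hO'O _ _).trans ih
    let W : ℕ → Set X := fun k => V k (Os k)
    have hWdisj : ∀ j k, j < k → Disjoint (W j) (W k) := by
      intro j k hjk
      have h1 : Disjoint (W j) (Os (j + 1)).1 := by rw [hOs]; exact hdisj _ _
      exact h1.mono_right ((hVO k (Os k)).trans (hanti (j + 1) k hjk))
    have hWdisj' : ∀ j k, j ≠ k → Disjoint (W j) (W k) := by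
      intro j k hjk
      rcases lt_or_gt_of_ne hjk with h | h
      · exact hWdisj j k h
      · exact (hWdisj k j h).symm
    have hD : ∀ k, ∃ D ⊆ A ∩ W k, IsDiscrete D ∧ x (n k (Os k)) ∈ closure D :=
      fun k => hx _ (W k) (hV _ _) (hxV _ _)
    choose D hDsub hDd hDcl using hD
    refine ⟨⋃ k, D k, ?_, ?_, ?_⟩
    · refine iUnion_subset fun k y hy => ⟨(hDsub k hy).1, ?_⟩
      exact hanti 0 k (Nat.zero_le k) (hVO k (Os k) (hDsub k hy).2)
    · refine discrete_of_exists_open ?_
      intro z hz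
      obtain ⟨k, hk⟩ := mem_iUnion.1 hz
      obtain ⟨G, hG, hzG, hGz⟩ := exists_open_of_discrete (hDd k) hk
      refine ⟨G ∩ W k, hG.inter (hV _ _), ⟨hzG, (hDsub k hk).2⟩, ?_⟩
      intro y hy hyG
      obtain ⟨j, hj⟩ := mem_iUnion.1 hy
      have hjk : j = k := by
        by_contra hjk
        exact (Set.disjoint_left.1 (hWdisj' j k hjk)) (hDsub j hj).2 hyG.2
      subst hjk
      exact hGz y hj hyG.1
    · rw [mem_closure_iff]
      intro G hG hpG
      have hev : ∀ᶠ m in atTop, x m ∈ G := hlim.eventually (hG.mem_nhds hpG)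
      obtain ⟨N, hN⟩ := eventually_atTop.1 hev
      have h1 : x (n N (Os N)) ∈ G := hN _ (hn _ _)
      obtain ⟨y, hyG, hyD⟩ := mem_closure_iff.1 (hDcl N) G hG h1
      exact ⟨y, hyG, mem_iUnion.2 ⟨N, hyD⟩⟩
  have hcl : closure A ⊆ B := closure_minimal hAB hB.isClosed
  intro p hp
  obtain ⟨D, hD, hd, hpD⟩ := hcl hp univ isOpen_univ (mem_univ _)
  exact ⟨D, fun y hy => (hD hy).1, hd, hpD⟩

/-- Every separable Hausdorff sequential space is D-separable. -/
theorem selDSeparable_of_separable [T2Space X] [SequentialSpace X]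
    [TopologicalSpace.SeparableSpace X] : SelDSeparable X := by
  intro D hD
  by_cases hne : Nonempty X
  · obtain ⟨u, hu⟩ := TopologicalSpace.exists_dense_seq X
    have h : ∀ n, ∃ F ⊆ D n, IsDiscrete F ∧ u n ∈ closure F :=
      fun n => exists_discrete (D n) (u n) (hD n (u n))
    choose F hF hFd hFu using h
    refine ⟨F, hF, hFd, ?_⟩
    have hsub : range u ⊆ closure (⋃ n, F n) := by
      rintro y ⟨n, rfl⟩
      exact closure_mono (subset_iUnion F n) (hFu n)
    have hd : Dense (closure (⋃ n, F n)) := Dense.mono hsub hu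
    rwa [dense_closure] at hd
  · rw [not_nonempty_iff] at hne
    refine ⟨fun _ => ∅, fun _ => empty_subset _, fun n => ?_, fun x => (hne.false x).elim⟩
    exact discrete_of_exists_open (by intro z hz; exact hz.elim)

end Sequential

/-! ### Cylinders in `2 ^ I` and the countable chain condition -/

section Cylinder

variable {I : Type*}

/-- The basic open set of all `x` which agree with `w` on the finite set `S`. -/
def cyl (S : Finset I) (w : I → Bool) : Set (I → Bool) := {x | ∀ i ∈ S, x i = w i}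

theorem mem_cyl {S : Finset I} {w x : I → Bool} : x ∈ cyl S w ↔ ∀ i ∈ S, x i = w i := Iff.rfl

theorem self_mem_cyl (S : Finset I) (w : I → Bool) : w ∈ cyl S w := fun _ _ => rfl

theorem cyl_eq_pi (S : Finset I) (w : I → Bool) : cyl S w = Set.pi (S : Set I) fun i => {w i} := by
  ext x
  simp [mem_cyl, Set.mem_pi]

theorem isOpen_cyl (S : Finset I) (w : I → Bool) : IsOpen (cyl S w) := by
  rw [cyl_eq_pi]
  exact isOpen_set_pi S.finite_toSet fun i _ => isOpen_discrete _

/-- The cylinders around `x` form a neighbourhood base. -/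
theorem exists_cyl {U : Set (I → Bool)} (hU : IsOpen U) {x : I → Bool} (hx : x ∈ U) :
    ∃ S : Finset I, cyl S x ⊆ U := by
  obtain ⟨S, u, hu, hsub⟩ := isOpen_pi_iff.1 hU x hx
  refine ⟨S, fun y hy => hsub ?_⟩
  intro i hi
  rw [mem_cyl.1 hy i hi]
  exact (hu i hi).2

theorem cyl_mem_nhds (S : Finset I) (x : I → Bool) : cyl S x ∈ 𝓝 x :=
  (isOpen_cyl S x).mem_nhds (self_mem_cyl S x)

/-- A family of pairwise disjoint cylinders is countable. -/
theorem countable_of_disjoint_cyl {T : Set (Finset I × (I → Bool))}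
    (hT : T.PairwiseDisjoint fun p => cyl p.1 p.2) : T.Countable := by
  let μ : I → Measure Bool := fun _ => (PMF.uniformOfFintype Bool).toMeasure
  have hμ : ∀ i, IsProbabilityMeasure (μ i) := fun i => inferInstance
  have hmeas : ∀ t : T, MeasurableSet (cyl t.1.1 t.1.2) := by
    intro t
    rw [cyl_eq_pi]
    exact MeasurableSet.pi t.1.1.countable_toSet fun i _ => MeasurableSet.singleton _
  have hdisj : Pairwise (Function.onFun Disjoint fun t : T => cyl t.1.1 t.1.2) := by
    intro s t hst
    exact hT s.2 t.2 fun h => hst (Subtype.ext h)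
  have hc := Measure.countable_meas_pos_of_disjoint_iUnion (μ := Measure.infinitePi μ) hmeas hdisj
  have hall : {t : T | 0 < Measure.infinitePi μ (cyl t.1.1 t.1.2)} = univ := by
    ext t
    simp only [mem_ofPred_eq, mem_univ, iff_true]
    rw [cyl_eq_pi, Measure.infinitePi_pi μ fun i _ => MeasurableSet.singleton _]
    refine pos_iff_ne_zero.2 (Finset.prod_ne_zero_iff.2 fun i _ => ?_)
    simp only [μ]
    rw [PMF.toMeasure_apply_singleton _ _ (MeasurableSet.singleton _)]
    simp
  rw [hall] at hc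
  rw [← Set.countable_coe_iff]
  exact Set.countable_univ_iff.1 hc

/-- Let `S z` (`z ∈ F`) be finite sets.  Some countable `F' ⊆ F` satisfies
`⋃ z ∈ F, cyl (S z) z ⊆ closure (⋃ z ∈ F', cyl (S z) z)`. -/
theorem exists_countable_subfamily {ι : Type*} (F : Set ι) (S : ι → Finset I)
    (w : ι → I → Bool) :
    ∃ F' ⊆ F, F'.Countable ∧ ∀ z ∈ F, ∀ x ∈ cyl (S z) (w z), ∀ R : Finset I,
      (cyl R x ∩ ⋃ y ∈ F', cyl (S y) (w y)).Nonempty := by
  classical
  -- a maximal disjoint family of cylinders refining the given one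
  let P : Set (Set (Finset I × (I → Bool))) :=
    {T | (∀ p ∈ T, ∃ z ∈ F, cyl p.1 p.2 ⊆ cyl (S z) (w z)) ∧
      T.PairwiseDisjoint fun p => cyl p.1 p.2}
  obtain ⟨T, hT⟩ : ∃ T, Maximal (· ∈ P) T := by
    refine zorn_subset P ?_
    intro c hc hchain
    refine ⟨⋃₀ c, ⟨?_, ?_⟩, fun s hs => subset_sUnion_of_mem hs⟩
    · rintro p ⟨s, hs, hps⟩
      exact (hc hs).1 p hps
    · rintro p ⟨s, hs, hps⟩ q ⟨t, ht, hqt⟩ hpq
      rcases hchain.total hs ht with h | h
      · exact (hc ht).2 (h hps) hqt hpq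
      · exact (hc hs).2 hps (h hqt) hpq
  have hTc : T.Countable := countable_of_disjoint_cyl hT.prop.2
  have hch : ∀ p : T, ∃ z ∈ F, cyl p.1.1 p.1.2 ⊆ cyl (S z) (w z) := fun p => hT.prop.1 p.1 p.2
  choose g hgF hg using hch
  have : Countable T := hTc.to_subtype
  refine ⟨range g, ?_, countable_range g, ?_⟩
  · rintro _ ⟨p, rfl⟩
    exact hgF p
  · intro z hz x hx R
    by_contra hempty
    -- the cylinder `cyl (R ∪ S z) x` can be added to the family
    let q : Finset I × (I → Bool) := (R ∪ S z, x)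
    have hq1 : cyl q.1 q.2 ⊆ cyl R x := fun y hy i hi => hy i (Finset.mem_union_left _ hi)
    have hq2 : cyl q.1 q.2 ⊆ cyl (S z) (w z) := fun y hy i hi => by
      rw [hy i (Finset.mem_union_right _ hi)]
      exact hx i hi
    have hqdisj : ∀ p ∈ T, Disjoint (cyl q.1 q.2) (cyl p.1 p.2) := by
      intro p hp
      rw [Set.disjoint_left]
      intro y hy hyp
      refine hempty ⟨y, hq1 hy, ?_⟩
      exact mem_biUnion (mem_range_self (⟨p, hp⟩ : T)) (hg ⟨p, hp⟩ hyp)
    have hins : insert q T ∈ P := by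
      refine ⟨?_, ?_⟩
      · rintro p (rfl | hp)
        · exact ⟨z, hz, hq2⟩
        · exact hT.prop.1 p hp
      · refine (Set.pairwiseDisjoint_insert).2 ⟨hT.prop.2, ?_⟩
        intro p hp _
        exact hqdisj p hp
    have hqT : q ∈ T := hT.le_of_ge hins (subset_insert q T) (mem_insert q T)
    have := hqdisj q hqT
    rw [disjoint_self] at this
    have hmem : x ∈ cyl q.1 q.2 := self_mem_cyl _ _
    rw [this] at hmem
    exact hmem

end Cylinder

/-! ### The index set -/

/-- A code for an open subset of `2 ^ ℕ`: a set of finite sets of conditions `(k, b)`, meaning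
that the `k`-th coordinate has the value `b`. -/
abbrev Code : Type := Set (Finset (ℕ × Bool))

/-- The index set of the `Σ`-product.  Every sequence `a` of indices together with every sequence
`O` of codes gives a new index `mk a O`. -/
inductive Idx : Type
  | base : Idx
  | mk (a : ℕ → Idx) (O : ℕ → Code) : Idx

/-- An index is not one of the indices it is built from. -/
theorem Idx.ne_mk (i : Idx) : ∀ (a : ℕ → Idx) (O : ℕ → Code) (k : ℕ), i = Idx.mk a O → a k ≠ i := by
  induction i with
  | base => intro a O k h; cases h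
  | mk a' O' ih =>
    intro a O k h hk
    cases h
    exact ih k a' O' k hk rfl

theorem Idx.mk_ne (a : ℕ → Idx) (O : ℕ → Code) (k : ℕ) : a k ≠ Idx.mk a O :=
  Idx.ne_mk (Idx.mk a O) a O k rfl

/-- The open subset of `2 ^ Idx` given by a code and a sequence of indices. -/
def codeSet (a : ℕ → Idx) (c : Code) : Set (Idx → Bool) :=
  {x | ∃ p ∈ c, ∀ q ∈ p, x (a q.1) = q.2}

/-! ### The `Σ`-product -/

/-- The support of `x`. -/
def supp {I : Type*} (x : I → Bool) : Set I := {i | x i = true}

theorem mem_supp {I : Type*} {x : I → Bool} {i : I} : i ∈ supp x ↔ x i = true := Iff.rfl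

/-- The `Σ`-product of `I` copies of `{0, 1}`. -/
abbrev SigmaProd (I : Type*) : Type _ := {x : I → Bool // (supp x).Countable}

theorem eq_false_of_notMem {I : Type*} {x : I → Bool} {i : I} (h : i ∉ supp x) : x i = false := by
  rw [mem_supp] at h
  exact Bool.eq_false_iff.2 h

instance {I : Type*} : T35Space (SigmaProd I) := inferInstance

/-- Neighbourhoods in the `Σ`-product. -/
theorem exists_cyl_sigma {I : Type*} {U : Set (SigmaProd I)} (hU : IsOpen U) {x : SigmaProd I}
    (hx : x ∈ U) : ∃ S : Finset I, ∀ y : SigmaProd I, y.1 ∈ cyl S x.1 → y ∈ U := by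
  obtain ⟨V, hV, rfl⟩ := isOpen_induced_iff.1 hU
  obtain ⟨S, hS⟩ := exists_cyl hV hx
  exact ⟨S, fun y hy => hS hy⟩

theorem isOpen_cyl_sigma {I : Type*} (S : Finset I) (w : I → Bool) :
    IsOpen {y : SigmaProd I | y.1 ∈ cyl S w} :=
  (isOpen_cyl S w).preimage continuous_subtype_val

/-- The `Σ`-product is a Fréchet-Urysohn space. -/
instance {I : Type*} : FrechetUrysohnSpace (SigmaProd I) where
  closure_subset_seqClosure := by
    classical
    intro A x hx
    -- enumerate the supports
    have henum : ∀ z : SigmaProd I, ∃ e : ℕ → Option I, ∀ i ∈ supp z.1, ∃ n, e n = some i := by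
      intro z
      have hc : (insert none (some '' supp z.1) : Set (Option I)).Countable :=
        ((z.2.image some).insert none)
      obtain ⟨e, he⟩ := hc.exists_eq_range (insert_nonempty _ _)
      refine ⟨e, fun i hi => ?_⟩
      have : some i ∈ range e := by
        rw [← he]; exact mem_insert_of_mem _ (mem_image_of_mem _ hi)
      exact this
    choose e he using henum
    -- the first `n` coordinates in the enumeration of the support of `z`
    let G : SigmaProd I → ℕ → Finset I := fun z n => (Finset.range n).biUnion fun j => (e z j).toFinset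
    have hG : ∀ z n j i, j < n → e z j = some i → i ∈ G z n := by
      intro z n j i hj hi
      simp only [G, Finset.mem_biUnion, Finset.mem_range]
      exact ⟨j, hj, by simp [hi]⟩
    have hstep : ∀ s : Finset (SigmaProd I × ℕ), (∀ p ∈ s, p.1 ∈ A) →
        ∃ q : SigmaProd I × ℕ, q.1 ∈ A ∧ ∀ p ∈ s, (p.2 < q.2 ∧
          (∀ i ∈ G p.1 q.2, q.1.1 i = x.1 i) ∧ (∀ i ∈ G x q.2, q.1.1 i = x.1 i)) := by
      intro s _
      let N : ℕ := s.sup (fun p => p.2) + 1
      let S : Finset I := G x N ∪ s.biUnion fun p => G p.1 N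
      obtain ⟨b, hb, hbA⟩ := mem_closure_iff.1 hx _ (isOpen_cyl_sigma S x.1) (self_mem_cyl _ _)
      refine ⟨(b, N), hbA, fun p hp => ⟨?_, ?_, ?_⟩⟩
      · exact Nat.lt_succ_of_le (Finset.le_sup (f := fun p : SigmaProd I × ℕ => p.2) hp)
      · intro i hi
        exact hb i (Finset.mem_union_right _ (Finset.mem_biUnion.2 ⟨p, hp, hi⟩))
      · intro i hi
        exact hb i (Finset.mem_union_left _ hi)
    obtain ⟨f, hfA, hf⟩ := exists_seq_of_forall_finset_exists
      (fun p : SigmaProd I × ℕ => p.1 ∈ A)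
      (fun p q => p.2 < q.2 ∧ (∀ i ∈ G p.1 q.2, q.1.1 i = x.1 i) ∧
        (∀ i ∈ G x q.2, q.1.1 i = x.1 i)) hstep
    have hmono : StrictMono fun n => (f n).2 := fun m n hmn => (hf m n hmn).1
    refine ⟨fun n => (f n).1, hfA, ?_⟩
    rw [tendsto_subtype_rng, tendsto_pi_nhds]
    intro i
    refine tendsto_nhds_of_eventually_eq ?_
    by_cases h1 : i ∈ supp x.1
    · obtain ⟨j, hj⟩ := he x i h1
      filter_upwards [eventually_gt_atTop j] with n hn
      have h0 : 0 < n := lt_of_le_of_lt (Nat.zero_le _) hn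
      exact (hf 0 n h0).2.2 i (hG x _ j i (lt_of_lt_of_le hn (hmono.id_le n)) hj)
    · by_cases h2 : ∃ m, i ∈ supp (f m).1.1
      · obtain ⟨m, hm⟩ := h2
        obtain ⟨j, hj⟩ := he (f m).1 i hm
        filter_upwards [eventually_gt_atTop j, eventually_gt_atTop m] with n hn hmn
        exact (hf m n hmn).2.1 i (hG _ _ j i (lt_of_lt_of_le hn (hmono.id_le n)) hj)
      · refine Eventually.of_forall fun n => ?_
        have h3 : i ∉ supp (f n).1.1 := fun h => h2 ⟨n, h⟩
        rw [eq_false_of_notMem h3, eq_false_of_notMem h1]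

/-- The `Σ`-product is d-separable. -/
theorem dSeparable_sigma (I : Type*) : DSeparable (SigmaProd I) := by
  classical
  refine ⟨fun n => {x | ∃ s : Finset I, supp x.1 = s ∧ s.card = n}, fun n => ?_, ?_⟩
  · refine discrete_of_exists_open ?_
    rintro x ⟨s, hs, hcard⟩
    refine ⟨{y | y.1 ∈ cyl s x.1}, isOpen_cyl_sigma s x.1, self_mem_cyl _ _, ?_⟩
    rintro y ⟨t, ht, htcard⟩ hy
    have hst : s ⊆ t := by
      intro i hi
      have h1 : i ∈ supp x.1 := by rw [hs]; exact hi
      have h2 : i ∈ supp y.1 := by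
        rw [mem_supp, mem_cyl.1 hy i hi]; exact h1
      rw [ht] at h2
      exact h2
    have heq : s = t := Finset.eq_of_subset_of_card_le hst (by omega)
    subst heq
    apply Subtype.ext
    funext i
    by_cases hi : i ∈ s
    · exact hy i hi
    · have h1 : i ∉ supp x.1 := by rw [hs]; exact hi
      have h2 : i ∉ supp y.1 := by rw [ht]; exact hi
      rw [eq_false_of_notMem h1, eq_false_of_notMem h2]
  · intro x
    rw [mem_closure_iff]
    intro U hU hx
    obtain ⟨S, hS⟩ := exists_cyl_sigma hU hx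
    let y : I → Bool := fun i => if i ∈ S then x.1 i else false
    have hy : supp y = ((S.filter fun i => x.1 i = true : Finset I) : Set I) := by
      ext i
      simp only [mem_supp, y, Finset.coe_filter, mem_ofPred_eq]
      by_cases hi : i ∈ S <;> simp [hi]
    have hyc : (supp y).Countable := by rw [hy]; exact Finset.countable_toSet _
    refine ⟨⟨y, hyc⟩, hS _ ?_, mem_iUnion.2 ⟨_, ⟨_, hy, rfl⟩⟩⟩
    intro i hi
    simp only [y]
    rw [if_pos hi]

/-! ### The dense subspace which is not d-separable -/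

/-- The dense subspace of the `Σ`-product: `z` belongs to it when for every index `mk a O` in its
support such that all the open sets given by `a` and the codes `O n` are dense, `z` belongs to all
these open sets. -/
def Z : Set (SigmaProd Idx) :=
  {z | ∀ (a : ℕ → Idx) (O : ℕ → Code), Idx.mk a O ∈ supp z.1 →
    (∀ n, Dense (codeSet a (O n))) → ∀ n, z.1 ∈ codeSet a (O n)}

/-- The requirement with number `n` imposed by the index `i`. -/
def req (i : Idx) (n : ℕ) : Set (Idx → Bool) :=
  {x | ∀ (a : ℕ → Idx) (O : ℕ → Code), i = Idx.mk a O →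
    (∀ n, Dense (codeSet a (O n))) → x ∈ codeSet a (O n)}

theorem isOpen_codeSet (a : ℕ → Idx) (c : Code) : IsOpen (codeSet a c) := by
  have : codeSet a c = ⋃ p ∈ c, ⋂ q ∈ p, {x : Idx → Bool | x (a q.1) = q.2} := by
    ext x
    simp [codeSet]
  rw [this]
  refine isOpen_biUnion fun p _ => isOpen_biInter_finset fun q _ => ?_
  have h : {x : Idx → Bool | x (a q.1) = q.2} = (fun x : Idx → Bool => x (a q.1)) ⁻¹' {q.2} := rfl
  rw [h]
  exact (isOpen_discrete _).preimage (continuous_apply _)

theorem req_eq (i : Idx) (n : ℕ) : req i n = univ ∨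
    ∃ (a : ℕ → Idx) (O : ℕ → Code), Dense (codeSet a (O n)) ∧ req i n = codeSet a (O n) := by
  cases i with
  | base =>
    left
    ext x
    simp [req]
  | mk a O =>
    by_cases h : ∀ n, Dense (codeSet a (O n))
    · right
      refine ⟨a, O, h n, ?_⟩
      ext x
      constructor
      · intro hx
        exact hx a O rfl h
      · intro hx a' O' heq _
        cases heq
        exact hx
    · left
      ext x
      simp only [mem_univ, iff_true]
      intro a' O' heq h'
      cases heq
      exact absurd h' h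

theorem isOpen_req (i : Idx) (n : ℕ) : IsOpen (req i n) := by
  rcases req_eq i n with h | ⟨a, O, _, h⟩
  · rw [h]; exact isOpen_univ
  · rw [h]; exact isOpen_codeSet _ _

theorem dense_req (i : Idx) (n : ℕ) : Dense (req i n) := by
  rcases req_eq i n with h | ⟨a, O, hd, h⟩
  · rw [h]; exact dense_univ
  · rw [h]; exact hd

/-- `Z` is dense. -/
theorem dense_Z : Dense Z := by
  classical
  intro x
  rw [mem_closure_iff]
  intro U hU hx
  obtain ⟨S, hS⟩ := exists_cyl_sigma hU hx
  -- one step of the construction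
  have step : ∀ (m : ℕ) (c : Finset Idx × (Idx → Bool)), ∃ c' : Finset Idx × (Idx → Bool),
      c.1 ⊆ c'.1 ∧ c'.2 ∈ cyl c.1 c.2 ∧
        ∀ i ∈ c.1, ∀ n < m, cyl c'.1 c'.2 ⊆ req i n := by
    intro m c
    let Q : Set (Idx × ℕ) := ↑(c.1 ×ˢ Finset.range m)
    have hQo : IsOpen (⋂ q ∈ Q, req q.1 q.2) :=
      isOpen_biInter_finset fun q _ => isOpen_req q.1 q.2
    have hQd : Dense (⋂ q ∈ Q, req q.1 q.2) :=
      dense_biInter_of_isOpen (fun q _ => isOpen_req q.1 q.2) (Finset.countable_toSet _)
        (fun q _ => dense_req q.1 q.2)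
    obtain ⟨y, hy, hyQ⟩ := hQd.inter_open_nonempty _ (isOpen_cyl c.1 c.2) ⟨c.2, self_mem_cyl _ _⟩
    obtain ⟨R, hR⟩ := exists_cyl hQo hyQ
    refine ⟨(c.1 ∪ R, y), Finset.subset_union_left, hy, ?_⟩
    intro i hi n hn z hz
    have h1 : z ∈ ⋂ q ∈ Q, req q.1 q.2 := hR fun j hj => hz j (Finset.mem_union_right _ hj)
    have h2 : ((i, n) : Idx × ℕ) ∈ Q := by
      simp only [Q, Finset.coe_product, mem_prod, Finset.mem_coe, Finset.mem_range]
      exact ⟨hi, hn⟩
    exact (mem_iInter₂.1 h1) (i, n) h2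
  choose next hsub hmem hreq using step
  let c : ℕ → Finset Idx × (Idx → Bool) :=
    fun m => Nat.rec ((S, x.1) : Finset Idx × (Idx → Bool)) (fun m c => next m c) m
  have hc : ∀ m, c (m + 1) = next m (c m) := fun m => rfl
  have hmono : ∀ j k, j ≤ k → (c j).1 ⊆ (c k).1 ∧ (c k).2 ∈ cyl (c j).1 (c j).2 := by
    intro j k hjk
    induction hjk with
    | refl => exact ⟨subset_rfl, self_mem_cyl _ _⟩
    | step _ ih =>
      rename_i k _
      rw [Nat.succ_eq_add_one, hc]
      refine ⟨ih.1.trans (hsub _ _), fun i hi => ?_⟩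
      rw [hmem k (c k) i (ih.1 hi)]
      exact ih.2 i hi
  let z : Idx → Bool := fun i => if h : ∃ m, i ∈ (c m).1 then (c (Nat.find h)).2 i else false
  have hz : ∀ m, z ∈ cyl (c m).1 (c m).2 := by
    intro m i hi
    have h : ∃ m, i ∈ (c m).1 := ⟨m, hi⟩
    simp only [z]
    rw [dif_pos h]
    exact ((hmono _ m (Nat.find_min' h hi)).2 i (Nat.find_spec h)).symm
  have hzs : ∀ i ∈ supp z, ∃ m, i ∈ (c m).1 := by
    intro i hi
    by_contra h
    rw [mem_supp] at hi
    simp only [z] at hi
    rw [dif_neg h] at hi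
    exact Bool.false_ne_true hi
  have hzc : (supp z).Countable := by
    refine (countable_iUnion fun m => (c m).1.countable_toSet).mono ?_
    intro i hi
    obtain ⟨m, hm⟩ := hzs i hi
    exact mem_iUnion.2 ⟨m, hm⟩
  refine ⟨⟨z, hzc⟩, hS _ (hz 0), ?_⟩
  intro a O hi hd n
  obtain ⟨m, hm⟩ := hzs _ hi
  have h1 : Idx.mk a O ∈ (c (max m (n + 1))).1 := (hmono m _ (le_max_left _ _)).1 hm
  have h2 := hreq (max m (n + 1)) (c (max m (n + 1))) _ h1 n
    (lt_of_lt_of_le (Nat.lt_succ_self n) (le_max_right _ _))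
  rw [← hc] at h2
  exact h2 (hz (max m (n + 1) + 1)) a O rfl hd

/-- No union of countably many discrete subspaces of `Z` is dense. -/
theorem not_dense_of_discrete (F : ℕ → Set (SigmaProd Idx)) (hFZ : ∀ n, F n ⊆ Z)
    (hF : ∀ n, IsDiscrete (F n)) : ¬ Dense (⋃ n, F n) := by
  classical
  intro hdense
  -- witnesses of discreteness
  have hS : ∀ (n : ℕ) (z : SigmaProd Idx), ∃ S : Finset Idx, z ∈ F n →
      ∀ y ∈ F n, y.1 ∈ cyl S z.1 → y = z := by
    intro n z
    by_cases hz : z ∈ F n
    · obtain ⟨U, hU, hzU, hUz⟩ := exists_open_of_discrete (hF n) hz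
      obtain ⟨S, hS⟩ := exists_cyl_sigma hU hzU
      exact ⟨S, fun _ y hy hyS => hUz y hy (hS y hyS)⟩
    · exact ⟨∅, fun h => absurd h hz⟩
  choose S hS using hS
  -- countable subfamilies
  have hF' : ∀ n, ∃ F' ⊆ F n, F'.Countable ∧ ∀ z ∈ F n, ∀ x ∈ cyl (S n z) z.1, ∀ R : Finset Idx,
      (cyl R x ∩ ⋃ y ∈ F', cyl (S n y) y.1).Nonempty :=
    fun n => exists_countable_subfamily (F n) (S n) fun z => z.1
  choose F' hF'sub hF'c hF'd using hF'
  -- a countable set of indices on which everything depends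
  let A : Set Idx := ⋃ n, ⋃ z ∈ F' n, (supp z.1 ∪ ↑(S n z))
  have hA : A.Countable := countable_iUnion fun n => (hF'c n).biUnion fun z _ =>
    z.2.union (S n z).countable_toSet
  obtain ⟨a, ha⟩ := (hA.insert Idx.base).exists_eq_range (insert_nonempty _ _)
  have hak : ∀ i, ∃ k, i ∈ A → a k = i := by
    intro i
    by_cases hi : i ∈ A
    · have : i ∈ range a := by rw [← ha]; exact mem_insert_of_mem _ hi
      obtain ⟨k, hk⟩ := this
      exact ⟨k, fun _ => hk⟩
    · exact ⟨0, fun h => absurd h hi⟩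
  choose k hk using hak
  have hSA : ∀ n, ∀ z ∈ F' n, ∀ i ∈ S n z, i ∈ A := by
    intro n z hz i hi
    exact mem_iUnion.2 ⟨n, mem_biUnion hz (Or.inr hi)⟩
  have hsA : ∀ n, ∀ z ∈ F' n, ∀ i ∈ supp z.1, i ∈ A := by
    intro n z hz i hi
    exact mem_iUnion.2 ⟨n, mem_biUnion hz (Or.inl hi)⟩
  let V : ℕ → Set (Idx → Bool) := fun n => ⋃ y ∈ F' n, cyl (S n y) y.1
  let O : ℕ → Code := fun n => {p | (∀ x : Idx → Bool, (∀ q ∈ p, x (a q.1) = q.2) → x ∈ V n) ∨
    (∀ x : Idx → Bool, (∀ q ∈ p, x (a q.1) = q.2) → x ∉ V n)}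
  -- conditions coding cylinders over subsets of `A`
  have hcode : ∀ (T : Finset Idx) (w : Idx → Bool), (∀ i ∈ T, i ∈ A) → ∀ x : Idx → Bool,
      (∀ q ∈ T.image fun i => (k i, w i), x (a q.1) = q.2) ↔ x ∈ cyl T w := by
    intro T w hT x
    constructor
    · intro h i hi
      have := h (k i, w i) (Finset.mem_image_of_mem _ hi)
      simp only [hk i (hT i hi)] at this
      exact this
    · intro h q hq
      obtain ⟨i, hi, rfl⟩ := Finset.mem_image.1 hq
      simp only [hk i (hT i hi)]
      exact h i hi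
  have hOdense : ∀ n, Dense (codeSet a (O n)) := by
    intro n x
    rw [mem_closure_iff]
    intro U hU hx
    obtain ⟨R, hR⟩ := exists_cyl hU hx
    by_cases hne : (cyl R x ∩ V n).Nonempty
    · obtain ⟨y, hyR, hyV⟩ := hne
      refine ⟨y, hR hyR, ?_⟩
      obtain ⟨z, hz, hyz⟩ := mem_iUnion₂.1 hyV
      refine ⟨(S n z).image fun i => (k i, z.1 i), Or.inl fun x' hx' => ?_,
        (hcode _ _ (hSA n z hz) y).2 hyz⟩
      exact mem_biUnion hz ((hcode _ _ (hSA n z hz) x').1 hx')
    · refine ⟨x, hx, ?_⟩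
      have hT : ∀ i ∈ R.filter (fun i => i ∈ A), i ∈ A := fun i hi => (Finset.mem_filter.1 hi).2
      refine ⟨(R.filter fun i => i ∈ A).image fun i => (k i, x i), Or.inr fun x' hx' hV => ?_,
        (hcode _ _ hT x).2 (self_mem_cyl _ _)⟩
      have hx'' := (hcode _ _ hT x').1 hx'
      obtain ⟨z, hz, hx'z⟩ := mem_iUnion₂.1 hV
      refine hne ⟨fun i => if i ∈ R then x i else x' i, ?_, mem_biUnion hz ?_⟩
      · intro i hi
        simp only [if_pos hi]
      · intro i hi
        by_cases hiR : i ∈ R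
        · simp only [if_pos hiR]
          rw [← hx'z i hi]
          exact (hx'' i (Finset.mem_filter.2 ⟨hiR, hSA n z hz i hi⟩)).symm
        · simp only [if_neg hiR]
          exact hx'z i hi
  -- a point of the union with the new index in its support
  let e : SigmaProd Idx := ⟨fun i => decide (i = Idx.mk a O), by
    refine (Set.countable_singleton (Idx.mk a O)).mono ?_
    intro i hi
    simpa [supp] using hi⟩
  obtain ⟨z, hze, hzF⟩ := hdense.inter_open_nonempty _
    (isOpen_cyl_sigma {Idx.mk a O} e.1) ⟨e, self_mem_cyl _ _⟩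
  have hzδ : Idx.mk a O ∈ supp z.1 := by
    have h1 := hze (Idx.mk a O) (Finset.mem_singleton_self _)
    rw [mem_supp, h1]
    simp [e]
  obtain ⟨n, hn⟩ := mem_iUnion.1 hzF
  obtain ⟨p, hp, hzp⟩ := hFZ n hn a O hzδ hOdense n
  rcases hp with hp | hp
  · obtain ⟨z', hz', hzz'⟩ := mem_iUnion₂.1 (hp z.1 hzp)
    have heq : z = z' := hS n z' (hF'sub n hz') z hn hzz'
    subst heq
    have hmem : Idx.mk a O ∈ A := hsA n z hz' _ hzδ
    exact Idx.mk_ne a O _ (hk _ hmem)
  · obtain ⟨y, hyR, hyV⟩ := hF'd n z hn z.1 (self_mem_cyl _ _) (p.image fun q => a q.1)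
    refine hp y (fun q hq => ?_) hyV
    rw [hyR (a q.1) (Finset.mem_image_of_mem _ hq)]
    exact hzp q hq

/-- The `Σ`-product is not D-separable. -/
theorem not_selDSeparable_sigma : ¬ SelDSeparable (SigmaProd Idx) := by
  intro h
  obtain ⟨F, hF, hFd, hdense⟩ := h (fun _ => Z) fun _ => dense_Z
  exact not_dense_of_discrete F hF hFd hdense

/-- **For Hausdorff spaces:** there is a Tychonoff Fréchet-Urysohn (hence sequential) space which
is d-separable but not D-separable; such a space can never be separable (in particular never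
countable): every separable Hausdorff sequential space is D-separable. -/
theorem result :
    (∃ (X : Type) (_ : TopologicalSpace X),
      T35Space X ∧ FrechetUrysohnSpace X ∧ SequentialSpace X ∧
        DSeparable X ∧ ¬ SelDSeparable X) ∧
    (∀ (X : Type u) [TopologicalSpace X] [T2Space X] [SequentialSpace X]
      [TopologicalSpace.SeparableSpace X], SelDSeparable X) :=
  ⟨⟨SigmaProd Idx, inferInstance, inferInstance, inferInstance, inferInstance,
    dSeparable_sigma Idx, not_selDSeparable_sigma⟩,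
    fun _ _ _ _ _ => selDSeparable_of_separable⟩

end Pool.Agent.Results.MP_718903_gt.HausdorffAnswer
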